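import Pool.Agent.H494Z.MSS.Defs
import Pool.Agent.H494Z.MSS.Main

set_option autoImplicit false

namespace Pool.Agent.Results.MP_7884fa_an.ACoarseInvariance

open Pool.Agent.H494Z.CoarseGhost

/-- If `Y` coarsely embeds into `X` (both uniformly locally finite) and all sparse subspaces of
`X` yield only compact ghost projections, then so do all sparse subspaces of `Y`. -/
theorem result : ∀ (X Y : Type) [MetricSpace X] [MetricSpace Y], ULF X → ULF Y →
    (∃ f : Y → X, IsCoarseEmbedding f) → OnlyCompactGhosts X → OnlyCompactGhosts Y := by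
  intro X Y _ _ _ hY ⟨f, hf⟩ hX
  exact Pool.Agent.H494Z.Ghost.main hY f hf hX

end Pool.Agent.Results.MP_7884fa_an.ACoarseInvariance
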